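import Pool.Agent.Helper18.SG.Goals

/-!
# SG-S1: the coefficients of `ff` at `ε = 0`
-/

set_option autoImplicit false

namespace Pool.Agent.Helper89.SG

open Finset Pool.Agent.Lead.Sh Pool.Agent.Helper18.SG

lemma ex_inj {a b c d : ℕ} (h : ex (a, b) = ex (c, d)) : a = c ∧ b = d := by
  have h0 := DFunLike.congr_fun h (0 : Fin 2)
  have h1 := DFunLike.congr_fun h (1 : Fin 2)
  simp [ex] at h0 h1
  exact ⟨h0, h1⟩

lemma mono_ex (a b : ℕ) (c : ℂ) : (MvPolynomial.X 0 ^ a * MvPolynomial.X 1 ^ b * MvPolynomial.C c :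
    MvPolynomial (Fin 2) ℂ) = MvPolynomial.monomial (ex (a, b)) c := by
  rw [MvPolynomial.X_pow_eq_monomial, MvPolynomial.X_pow_eq_monomial, MvPolynomial.monomial_mul,
    mul_comm, MvPolynomial.C_mul_monomial]
  simp [ex]

lemma coeff_prod (t u : ℂ) (n m : ℕ) (o : ℕ × ℕ) :
    MvPolynomial.coeff (ex o) ((MvPolynomial.X 0 + MvPolynomial.C t) ^ n *
      (MvPolynomial.X 1 + MvPolynomial.C u) ^ m : MvPolynomial (Fin 2) ℂ) = E o (n, m) t u := by
  obtain ⟨i, j⟩ := o
  have hexp : ((MvPolynomial.X 0 + MvPolynomial.C t) ^ n *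
      (MvPolynomial.X 1 + MvPolynomial.C u) ^ m : MvPolynomial (Fin 2) ℂ) =
      ∑ a ∈ range (n + 1), ∑ b ∈ range (m + 1), MvPolynomial.monomial (ex (a, b))
        (E (a, b) (n, m) t u) := by
    rw [add_pow, add_pow, sum_mul_sum]
    refine sum_congr rfl fun a _ => sum_congr rfl fun b _ => ?_
    rw [← mono_ex]
    simp only [E, map_mul, map_pow, map_natCast]
    ring
  rw [hexp, MvPolynomial.coeff_sum]
  by_cases hij : i ∈ range (n + 1) ∧ j ∈ range (m + 1)
  · rw [sum_eq_single i, MvPolynomial.coeff_sum, sum_eq_single j, MvPolynomial.coeff_monomial,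
      if_pos rfl]
    · intro b _ hb
      rw [MvPolynomial.coeff_monomial, if_neg]
      intro he; exact hb (ex_inj he).2
    · intro hn; exact absurd hij.2 hn
    · intro a _ ha
      rw [MvPolynomial.coeff_sum]
      refine sum_eq_zero fun b _ => ?_
      rw [MvPolynomial.coeff_monomial, if_neg]
      intro he; exact ha (ex_inj he).1
    · intro hn; exact absurd hij.1 hn
  · have h0 : E (i, j) (n, m) t u = 0 := by
      rw [mem_range, mem_range] at hij
      unfold E
      by_cases hi : i ≤ n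
      · rw [Nat.choose_eq_zero_of_lt (show m < j by omega)]; simp
      · rw [Nat.choose_eq_zero_of_lt (show n < i by omega)]; simp
    rw [h0]
    refine sum_eq_zero fun a ha => ?_
    rw [MvPolynomial.coeff_sum]
    refine sum_eq_zero fun b hb => ?_
    rw [MvPolynomial.coeff_monomial, if_neg]
    intro he
    obtain ⟨rfl, rfl⟩ := ex_inj he
    exact hij ⟨ha, hb⟩

theorem goalS1 : GoalS1 := by
  intro b t u d o _
  have h1 : (MvPolynomial.coeff (ex o) (ff b t u d)).eval 0 =
      MvPolynomial.coeff (ex o) (MvPolynomial.map (Polynomial.evalRingHom 0) (ff b t u d)) := by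
    rw [MvPolynomial.coeff_map, Polynomial.coe_evalRingHom]
  rw [h1, sig, ← coeff_prod]
  congr 1
  simp only [ff, map_mul, map_pow, map_add, map_sub, MvPolynomial.map_C, MvPolynomial.map_X,
    Polynomial.coe_evalRingHom, Polynomial.eval_C, Polynomial.eval_X, map_zero, zero_mul, sub_zero]
  rw [pow_add, pow_mul]
  ring

end Pool.Agent.Helper89.SG
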